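import Mathlib

/-!
# MP_c0c476_ag: local volumes along the MMP when `±(K + Δ)` is big over a base without rational
curves

Let `(Y, Δ_Y)` be a projective klt pair with a morphism `π` to a projective variety `B` which
contains no rational curve (a point, a subvariety of an abelian variety, ...), `H` ample on `B`. If
`s (K_Y + Δ_Y) + t π^* H` is big for some real numbers `s`, `t`, the local volumes of all models of
`(Y, Δ_Y)` obtained by `(K_Y + Δ_Y)`-nonnegative birational maps are bounded below; the same is true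
for every pair `(X, Δ)` of which `(Y, Δ_Y)` is a finite crepant cover. This contains all pairs with
`-(K + Δ)` big (`B` a point, `s = -1`), all pairs on varieties of maximal Albanese dimension
(`s = 0`) and all their finite quasi-etale quotients.
-/

set_option autoImplicit false

namespace Pool.Agent.Results.MP_c0c476_ag.BigOverBase

/-- A projective klt pair `(X, Δ)` with its `(K + Δ)`-nonnegative birational maps. `V` is the space
of `ℝ`-Cartier divisors on `X` up to `ℝ`-linear equivalence. -/
structure VolData (V : Type) [AddCommGroup V] [Module ℝ V] where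
  /-- the dimension of `X` -/
  dim : ℕ
  /-- the class of `K_X + Δ` -/
  kappa : V
  /-- the big classes -/
  big : Set V
  /-- the prime divisors over `X` -/
  Val : Type
  /-- the log discrepancies with respect to `(X, Δ)` -/
  ld : Val → ℝ
  ld_pos : ∀ v, 0 < ld v
  /-- `orders L` is the set of the functions `v ↦ ord_v G`, where `G` is an effective divisor which is
  `ℝ`-linearly equivalent to `L` -/
  orders : V → Set (Val → ℝ)
  orders_nonneg : ∀ L, ∀ o ∈ orders L, ∀ v, 0 ≤ o v
  /-- the alpha invariant of a big class is positive -/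
  alpha_pos : ∀ L ∈ big, ∃ a : ℝ, 0 < a ∧ ∀ o ∈ orders L, ∀ v, a * o v ≤ ld v
  /-- the `(K + Δ)`-nonnegative birational maps `φ : X ⇢ X'`; `p : W → X` and `q : W → X'` is a
  common resolution -/
  Map : Type
  /-- the classes `L` such that `φ_* L` is `ℝ`-Cartier -/
  cart : Map → Submodule ℝ V
  /-- `diff φ L v` is the coefficient at `v` of `q^* φ_* L - p^* L`. For an effective divisor `G` of
  class `L` the order of vanishing of `φ_* G` along `v` is `ord_v G + diff φ L v`. -/
  diff : (φ : Map) → cart φ →ₗ[ℝ] (Val → ℝ)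
  kappa_mem : ∀ φ, kappa ∈ cart φ
  /-- `φ` is `(K + Δ)`-nonnegative. The log discrepancy of `v` with respect to `(X', φ_* Δ)` is
  `ld v - diff φ κ v`. -/
  kappa_nonneg : ∀ φ v, diff φ ⟨kappa, kappa_mem φ⟩ v ≤ 0
  /-- the closed points of `X'` -/
  Point : Map → Type
  /-- the normalized volume of `(X', φ_* Δ)` at a point -/
  vol : (φ : Map) → Point φ → ℝ
  /-- local-to-global inequality for the graded linear series `φ_* |k L|` on `X'`, which contains an
  ample series and has the volume `w` of `L` -/
  local_global : ∀ L ∈ big, ∃ w : ℝ, 0 < w ∧ ∀ (φ : Map) (h : L ∈ cart φ) (a : ℝ), 0 < a →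
    (∀ o ∈ orders L, ∀ v, a * (o v + diff φ ⟨L, h⟩ v) ≤ ld v - diff φ ⟨kappa, kappa_mem φ⟩ v) →
    ∀ x : Point φ, a ^ dim * w ≤ vol φ x
  /-- the morphisms `π : X → B` to projective varieties with an ample divisor `H` on `B` -/
  Fib : Type
  /-- `π^* H` -/
  pull : Fib → V
  /-- `B` contains no rational curve -/
  NoRationalCurve : Fib → Prop
  /-- if `B` contains no rational curve, `π` is a morphism on `X'` too: the fibres of the resolution
  of a klt pair are rationally chain connected (Hacon, McKernan) -/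
  pull_mem : ∀ π, NoRationalCurve π → ∀ φ, pull π ∈ cart φ
  diff_pull : ∀ π (h : NoRationalCurve π) φ, diff φ ⟨pull π, pull_mem π h φ⟩ = 0

/-- The local volumes of the models of `(X, Δ)` are bounded below: the assertion of Q1. -/
def VolBounded {V : Type} [AddCommGroup V] [Module ℝ V] (M : VolData V) : Prop :=
  ∃ ε : ℝ, 0 < ε ∧ ∀ (φ : M.Map) (x : M.Point φ), ε ≤ M.vol φ x

/-- A finite crepant cover `f : (Y, Δ_Y) → (X, Δ)`, `K_Y + Δ_Y = f^* (K + Δ)`, with `Δ_Y` effective.
A nonnegative map `X ⇢ X'` lifts to a nonnegative map to the normalization `Y'` of `X'` in the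
function field of `Y`, and the local volume of a point of `X'` is at least the local volume of a
point of `Y'` over it, divided by the degree. -/
structure CrepantCover {V W : Type} [AddCommGroup V] [Module ℝ V] [AddCommGroup W] [Module ℝ W]
    (Y : VolData W) (X : VolData V) where
  deg : ℕ
  deg_pos : 0 < deg
  lift : X.Map → Y.Map
  vol_le : ∀ (φ : X.Map) (x : X.Point φ), ∃ y : Y.Point (lift φ),
    Y.vol (lift φ) y ≤ deg * X.vol φ x

/-- A criterion: the pull-backs of the transforms of a big class `L` grow at most as a multiple of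
the log discrepancies. -/
theorem criterion {V : Type} [AddCommGroup V] [Module ℝ V] (M : VolData V) {L : V}
    (hL : L ∈ M.big) (C : ℝ) (hC : 0 ≤ C) (hcart : ∀ φ, L ∈ M.cart φ)
    (hd : ∀ φ v, M.diff φ ⟨L, hcart φ⟩ v ≤ -(C * M.diff φ ⟨M.kappa, M.kappa_mem φ⟩ v)) :
    VolBounded M := by
  obtain ⟨a, ha, hal⟩ := M.alpha_pos L hL
  obtain ⟨w, hw, hwl⟩ := M.local_global L hL
  set c : ℝ := min a (1 / (C + 1)) with hc
  have hcpos : 0 < c := lt_min ha (by positivity)
  have hca : c ≤ a := min_le_left _ _
  have hcC : c * (C + 1) ≤ 1 := by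
    rw [← le_div_iff₀ (by positivity)]
    exact min_le_right _ _
  refine ⟨c ^ M.dim * w, by positivity, fun φ x => hwl φ (hcart φ) c hcpos ?_ x⟩
  intro o ho v
  have h1 := hal o ho v
  have h2 := M.orders_nonneg L o ho v
  have h3 := hd φ v
  have h4 := M.kappa_nonneg φ v
  set k := M.diff φ ⟨M.kappa, M.kappa_mem φ⟩ v with hk
  have h5 : c * o v ≤ a * o v := mul_le_mul_of_nonneg_right hca h2
  have h6 : c * M.diff φ ⟨L, hcart φ⟩ v ≤ c * (-(C * k)) := mul_le_mul_of_nonneg_left h3 hcpos.le
  have h7 : c * (-(C * k)) ≤ -k := by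
    have h8 : 0 ≤ (1 - c * C) * (-k) := by
      apply mul_nonneg
      · nlinarith
      · linarith
    nlinarith
  rw [mul_add]
  linarith

theorem result {V W : Type} [AddCommGroup V] [Module ℝ V] [AddCommGroup W] [Module ℝ W]
    (X : VolData V) (Y : VolData W) (f : CrepantCover Y X) (π : Y.Fib)
    (hπ : Y.NoRationalCurve π) (s t : ℝ) (hbig : s • Y.kappa + t • Y.pull π ∈ Y.big) :
    VolBounded X ∧ VolBounded Y := by
  have hY : VolBounded Y := by
    have hcart : ∀ φ, s • Y.kappa + t • Y.pull π ∈ Y.cart φ := fun φ =>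
      (Y.cart φ).add_mem ((Y.cart φ).smul_mem s (Y.kappa_mem φ))
        ((Y.cart φ).smul_mem t (Y.pull_mem π hπ φ))
    refine criterion Y hbig |s| (abs_nonneg s) hcart fun φ v => ?_
    have e : (⟨s • Y.kappa + t • Y.pull π, hcart φ⟩ : Y.cart φ) =
        s • ⟨Y.kappa, Y.kappa_mem φ⟩ + t • ⟨Y.pull π, Y.pull_mem π hπ φ⟩ := rfl
    rw [e, map_add, map_smul, map_smul, Y.diff_pull π hπ φ, smul_zero, add_zero]
    simp only [Pi.smul_apply, smul_eq_mul]
    have h1 := Y.kappa_nonneg φ v
    have h2 := neg_abs_le s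
    nlinarith
  refine ⟨?_, hY⟩
  obtain ⟨ε, hε, hb⟩ := hY
  have hdeg : (0 : ℝ) < f.deg := by exact_mod_cast f.deg_pos
  refine ⟨ε / f.deg, by positivity, fun φ x => ?_⟩
  obtain ⟨y, hy⟩ := f.vol_le φ x
  rw [div_le_iff₀ hdeg]
  have := hb (f.lift φ) y
  linarith

end Pool.Agent.Results.MP_c0c476_ag.BigOverBase
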